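import Mathlib
import Pool.Agent.Lib_helper85.SSPDefs
import Pool.Agent.Lib_helper85.SSPMain

open Pool.Agent.Lib_helper85.SSP

/-- First part (Q1): for every `g ≥ 6` there is a unicyclic graph of girth `g` in `G^SSP`.
Second part (Q2): for all `m ≥ 3` and `n ≥ 1`, the tadpole graph `T_{m,n}` belongs to `G^SSP` if and
only if `m ≤ 2 n + 3`. Third part: the tadpole graphs are unicyclic and `T_{m,n}` has girth `m`. -/
theorem Pool.Agent.Results.MP_34deb4_co.TadpoleSSP.result :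
    (∀ g : ℕ, 6 ≤ g → ∃ (V : Type) (_ : Fintype V) (_ : DecidableEq V) (G : SimpleGraph V),
      IsUnicyclic G ∧ G.girth = g ∧ InGSSP G) ∧
    (∀ m n : ℕ, 3 ≤ m → 1 ≤ n → (InGSSP (tadpole m n) ↔ m ≤ 2 * n + 3)) ∧
    (∀ m n : ℕ, 3 ≤ m → 1 ≤ n → IsUnicyclic (tadpole m n) ∧ (tadpole m n).girth = m) := by
  refine ⟨?_, fun m n hm hn => tadpole_iff m n hm hn, fun m n hm _ => tadpole_unicyclic m n hm⟩
  intro g hg
  have h := tadpole_unicyclic g g (by omega)
  exact ⟨_, inferInstance, inferInstance, tadpole g g, h.1, h.2,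
    (tadpole_iff g g (by omega) (by omega)).mpr (by omega)⟩
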